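import Pool.Agent.helper66.SL.SpecA

set_option autoImplicit false

namespace Pool.Agent.helper66.SL

open Pool.Agent.helper52.FC

theorem CLO_aux {E : Type} [Finite E] {L : Set (E → SignType)} (hGEO : GEO) (hL : IsOM L)
    (hs : IsSimple L) {X : E → SignType} (hX : X ∈ L) {T : E → SignType} (hT : IsTope L T)
    (hXT : Le X T) {Y : E → SignType} (hY : Y ∈ L)
    (h : ∀ e, Wall L T e → X e = 0 → Y e = 0) {g : E} (hg : X g = 0) : Y g = 0 ∨ Y g = T g := by
  have h0 : ∀ e, T e ≠ 0 := fun e => tope_supp hL hs hT e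
  have h1 : IsTope L (cmp X (cmp Y T)) := by
    refine tope_of (hL.comp X hX _ (hL.comp Y hY T hT.1)) fun e => ?_
    by_cases hXe : X e = 0
    · rw [cmp_pos hXe]
      by_cases hYe : Y e = 0
      · rw [cmp_pos hYe]; exact h0 e
      · rwa [cmp_neg hYe]
    · rwa [cmp_neg hXe]
  have h2 : T = cmp X (cmp Y T) := by
    by_contra hne
    obtain ⟨e, he, hne'⟩ := hGEO E L hL hs T _ hT h1 hne
    apply hne'
    by_cases hXe : X e = 0
    · rw [cmp_pos hXe, cmp_pos (h e he hXe)]
    · rw [cmp_neg hXe]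
      rcases hXT e with h3 | h3
      · exact absurd h3 hXe
      · exact h3.symm
  by_cases hYg : Y g = 0
  · exact Or.inl hYg
  · right
    have h3 := congrFun h2 g
    rw [cmp_pos hg, cmp_neg hYg] at h3
    exact h3.symm

theorem CLO_proof (hGEO : GEO) : CLO := by
  intro E _ L hL hs X hX T hT hXT Y hY h g hg
  have h1 := CLO_aux hGEO hL hs hX hT hXT hY h hg
  have h2 := CLO_aux hGEO hL hs hX hT hXT (hL.neg Y hY) (fun e he hXe => by
    simp [h e he hXe]) hg
  rcases h1 with h1 | h1
  · exact h1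
  · rcases h2 with h2 | h2
    · simpa using h2
    · have h3 : Y g = -Y g := by
        rw [h1]
        rw [h1] at h2
        exact h2.symm
      exact sneg h3 rfl

end Pool.Agent.helper66.SL
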