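import Pool.Agent.helper66.SL.SpecA

set_option autoImplicit false

namespace Pool.Agent.helper66.SL

open Pool.Agent.helper52.FC

theorem XUQ_proof (hBIJ : BIJ) : XUQ := by
  intro E _ L hL T hT X hX Y hY hXT hYT h
  obtain ⟨-, h2⟩ := hBIJ E L hL T hT
  have h3 := h2 X hX Y hY hXT hYT fun e he hYe => (h e he).2 hYe
  have h4 := h2 Y hY X hX hYT hXT fun e he hXe => (h e he).1 hXe
  funext e
  rcases h3 e with h5 | h5
  · rcases h4 e with h6 | h6
    · rw [h5, h6]
    · exact h6.symm
  · exact h5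

end Pool.Agent.helper66.SL
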